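import Mathlib

set_option autoImplicit false

namespace Pool.Agent.Results.MP_88cfb8_co.Period

open Filter

/-- `W n` (Player I wins from `n` stones), `f = f_I` and `g = f_II` obey the recursions -/
structure Cash (L M : ℕ) (W : ℕ → Prop) (f g : ℕ → ℕ) : Prop where
  win : ∀ n, W n ↔ ∃ a, L ≤ a ∧ a ≤ M ∧ a ≤ n ∧ ¬ W (n - a)
  small : ∀ n < L, f n = 0 ∧ g n = 0
  two : ∀ n ≥ L, IsGreatest {v | ∃ a, L ≤ a ∧ a ≤ M ∧ a ≤ n ∧ v = f (n - a)} (g n)
  oneW : ∀ n ≥ L, W n →
    IsLeast {v | ∃ a, L ≤ a ∧ a ≤ M ∧ a ≤ n ∧ ¬ W (n - a) ∧ v = g (n - a) + a} (f n)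
  oneL : ∀ n ≥ L, ¬ W n →
    IsLeast {v | ∃ a, L ≤ a ∧ a ≤ M ∧ a ≤ n ∧ f (n - a) = g n ∧ v = g (n - a) + a} (f n)

variable {L D : ℕ} {W : ℕ → Prop} {f g : ℕ → ℕ}

lemma hW (hL : 1 ≤ L) (h : Cash L (L + D) W f g) (q : ℕ) :
    ∀ r < 2 * L + D, (W (q * (2 * L + D) + r) ↔ L ≤ r) := by
  have key : ∀ N, (∀ r < L, ¬ W (N + r)) → ∀ r < 2 * L + D, (W (N + r) ↔ L ≤ r) :=
    fun N h1 r hr => ⟨fun h2 => le_of_not_gt fun h3 => h1 r h3 h2, fun h2 => (h.win _).2
      ⟨min r (L + D), by omega, by omega, by omega, by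
        rw [Nat.add_sub_assoc (min_le_left _ _)]; exact h1 _ (by omega)⟩⟩
  induction q with
  | zero => exact key _ fun r hr h1 => by obtain ⟨a, _, _, _, _⟩ := (h.win _).1 h1; omega
  | succ q ih =>
    refine key _ fun r hr h1 => ?_
    obtain ⟨a, _, _, _, h2⟩ := (h.win _).1 h1
    refine h2 ?_
    rw [show (q + 1) * (2 * L + D) + r - a = q * (2 * L + D) + (2 * L + D + r - a) by
      rw [add_mul]; omega]
    exact (ih _ (by omega)).2 (by omega)

lemma stepB (hL : 1 ≤ L) (h : Cash L (L + D) W f g) (q c d : ℕ)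
    (h1 : ∀ s < L, g (q * (2 * L + D) + s) + min (L - 1) (s + d) = c + s) :
    ∀ r, L ≤ r → r < 2 * L + D → f (q * (2 * L + D) + r) + min (L - 1) (r - L + d) = c + r := by
  intro r h2 h3
  obtain ⟨⟨a, a1, a2, a3, a4, a5⟩, h4⟩ := h.oneW _ (by omega) ((hW hL h q r h3).2 h2)
  have h5 := h4 ⟨r - min (L - 1) (r - L), by omega, by omega, by omega, by
    rw [Nat.add_sub_assoc (Nat.sub_le _ _), hW hL h q _ (by omega)]; omega, rfl⟩
  rw [Nat.add_sub_assoc (Nat.sub_le _ _)] at h5
  have h6 := h1 (r - (r - min (L - 1) (r - L))) (by omega)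
  have h7 : a ≤ r := by
    by_contra h7
    obtain _ | q := q
    · omega
    rw [show (q + 1) * (2 * L + D) + r - a = q * (2 * L + D) + (2 * L + D + r - a) by
      rw [add_mul]; omega, hW hL h q _ (by omega)] at a4
    omega
  rw [Nat.add_sub_assoc h7] at a4 a5
  rw [hW hL h q _ (by omega)] at a4
  have h8 := h1 (r - a) (by omega)
  omega

lemma formA (hL : 1 ≤ L) (h : Cash L (L + D) W f g) (q : ℕ) :
    ∀ s < L, g (q * (2 * L + D) + s) + min (L - 1) (s + q * D) = q * (L + D) + s := by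
  induction q with
  | zero => intro s hs; have := (h.small s hs).2; simp only [zero_mul, zero_add]; omega
  | succ q ih =>
    intro s hs
    have h1 := stepB hL h q _ _ ih
    have h2 : ∀ a ≤ L + D, (q + 1) * (2 * L + D) + s - a = q * (2 * L + D) + (2 * L + D + s - a) :=
      fun a ha => by rw [add_mul]; omega
    obtain ⟨⟨a, a1, a2, a3, a4⟩, h4⟩ := h.two ((q + 1) * (2 * L + D) + s) (by rw [add_mul]; omega)
    have h5 := h4 ⟨L, le_rfl, by omega, by omega, rfl⟩
    rw [h2 _ a2] at a4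
    rw [h2 _ (by omega)] at h5
    have := h1 (2 * L + D + s - a) (by omega) (by omega)
    have := h1 (2 * L + D + s - L) (by omega) (by omega)
    rw [add_mul q 1 D, add_mul q 1 (L + D)]
    omega

lemma late (hL : 1 ≤ L) (h : Cash L (L + D) W f g) (hD : 0 < D) (k : ℕ) : ∀ᶠ q in atTop, ∀ r, L ≤ r + k →
    r < 2 * L + D → f (q * (2 * L + D) + r) + (L - 1) = q * (L + D) + r := by
  have h0 : ∀ q ≥ L, ∀ r, L ≤ r → r < 2 * L + D →
      f (q * (2 * L + D) + r) + (L - 1) = q * (L + D) + r := fun q hq r h1 h2 => by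
    have := stepB hL h q _ _ (formA hL h q) r h1 h2
    have := Nat.le_mul_of_pos_right q hD
    omega
  induction k with
  | zero => exact eventually_atTop.2 ⟨L, h0⟩
  | succ k ih =>
    by_cases hk : L ≤ k
    · exact ih.mono fun q hq r _ => hq r (by omega)
    obtain ⟨s, hs⟩ : ∃ s, s + k + 1 = L := ⟨L - (k + 1), by omega⟩
    obtain ⟨Q, hQ⟩ := eventually_atTop.1 (ih.and (eventually_ge_atTop L))
    have step : ∀ q ≥ Q, f ((q + 1) * (2 * L + D) + s) + (L - 1) =
        max ((q + 1) * (L + D) + s) (f (q * (2 * L + D) + s) + (L - 1) + L) := by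
      intro q hq
      have h2 : ∀ a ≤ L + D, (q + 1) * (2 * L + D) + s - a
          = q * (2 * L + D) + (2 * L + D + s - a) := fun a ha => by rw [add_mul]; omega
      have h3 : L ≤ (q + 1) * (2 * L + D) + s := by rw [add_mul]; omega
      obtain ⟨a, a1, a2, a3, a4, a5⟩ := (h.oneL _ h3 (by rw [hW hL h _ _ (by omega)]; omega)).1
      have h5 := (h.two _ h3).2 ⟨L, le_rfl, by omega, h3, rfl⟩
      rw [h2 _ a2] at a4 a5
      rw [h2 _ (by omega)] at h5
      have := h0 q (hQ q hq).2 (2 * L + D + s - a) (by omega) (by omega)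
      have := h0 q (hQ q hq).2 (2 * L + D + s - L) (by omega) (by omega)
      obtain rfl : a = L := by omega
      obtain ⟨⟨b, b1, b2, b3, b4⟩, h4⟩ := h.two (q * (2 * a + D) + (2 * a + D + s - a)) (by omega)
      have h6 := h4 ⟨a, le_rfl, by omega, by omega, rfl⟩
      have h7 := h4 ⟨a + D, by omega, le_rfl, by omega, rfl⟩
      rw [Nat.add_sub_assoc (by omega)] at h6 h7
      rw [Nat.add_sub_assoc (show b ≤ 2 * a + D + s - a by omega)] at b4
      have := (hQ q hq).1 (2 * a + D + s - a - a) (by omega) (by omega)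
      rw [show 2 * a + D + s - a - (a + D) = s by omega] at h7
      rw [add_mul q 1 (a + D)]
      by_cases hb : b = a + D
      · rw [show 2 * a + D + s - a - b = s by omega] at b4
        omega
      · have := (hQ q hq).1 (2 * a + D + s - a - b) (by omega) (by omega)
        omega
    have dec : ∀ j, f ((Q + j + 1) * (2 * L + D) + s) + (L - 1) ≤ (Q + j + 1) * (L + D) + s +
        (f (Q * (2 * L + D) + s) + L - j) := fun j => by
      induction j with
      | zero => rw [step _ (by omega), add_zero Q, add_mul Q 1 (L + D)]; omega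
      | succ j ih => rw [step _ (by omega), ← add_assoc Q j, add_mul (Q + j + 1) 1]; omega
    filter_upwards [ih, eventually_gt_atTop (Q + (f (Q * (2 * L + D) + s) + L))] with q h1 h2 r h3 h4
    by_cases h5 : r = s
    · obtain ⟨j, rfl⟩ : ∃ j, q = Q + j + 1 := ⟨q - (Q + 1), by omega⟩
      have := dec j
      have := step (Q + j) (by omega)
      rw [h5]; omega
    · exact h1 r (by omega) h4

theorem result (L M : ℕ) (hL : 1 ≤ L) (hM : L ≤ M) (W : ℕ → Prop) (f g : ℕ → ℕ)
    (h : Cash L M W f g) :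
    ∃ Θ, ∀ n ≥ Θ, f (n + L + M) = f n + M ∧ g (n + L + M) = g n + M := by
  obtain ⟨D, rfl⟩ := Nat.exists_eq_add_of_le hM
  obtain ⟨Θ, h1⟩ : ∃ Θ, ∀ n ≥ Θ, f (n + L + (L + D)) = f n + (L + D) := by
    rcases D with _ | D
    · refine ⟨0, fun n _ => ?_⟩
      obtain ⟨a, _, _, _, h1⟩ := (h.two (n + L) (by omega)).1
      obtain rfl : a = L := by omega
      rw [Nat.add_sub_cancel] at h1
      by_cases h2 : W (n + a + a)
      · obtain ⟨b, _, _, _, _, h3⟩ := (h.oneW _ (by omega) h2).1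
        obtain rfl : b = a := by omega
        simpa [h1] using h3
      · obtain ⟨b, _, _, _, _, h3⟩ := (h.oneL _ (by omega) h2).1
        obtain rfl : b = a := by omega
        simpa [h1] using h3
    obtain ⟨Q, hQ⟩ := eventually_atTop.1 (late hL h D.succ_pos L)
    refine ⟨Q * (2 * L + (D + 1)), fun n hn => ?_⟩
    have h1 := (Nat.le_div_iff_mul_le (by omega)).2 hn
    have h2 := Nat.div_add_mod' n (2 * L + (D + 1))
    have h3 := Nat.mod_lt n (show 0 < 2 * L + (D + 1) by omega)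
    have h4 := hQ _ h1 _ (by omega) h3
    have h5 := hQ _ (Nat.le_succ_of_le h1) _ (by omega) h3
    rw [Nat.succ_mul (n / _), Nat.succ_mul (n / _), add_right_comm] at h5
    rw [h2] at h4 h5
    rw [show n + L + (L + (D + 1)) = n + (2 * L + (D + 1)) by omega]
    omega
  refine ⟨Θ + (L + D), fun n hn => ⟨h1 n (by omega), ?_⟩⟩
  obtain ⟨⟨a, a1, a2, a3, a4⟩, h2⟩ := h.two n (by omega)
  obtain ⟨⟨b, b1, b2, b3, b4⟩, h3⟩ := h.two (n + L + (L + D)) (by omega)
  have h4 := h2 ⟨b, b1, b2, by omega, rfl⟩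
  have h5 := h3 ⟨a, a1, a2, by omega, rfl⟩
  rw [show n + L + (L + D) - a = n - a + L + (L + D) by omega, h1 _ (by omega)] at h5
  rw [show n + L + (L + D) - b = n - b + L + (L + D) by omega, h1 _ (by omega)] at b4
  omega

end Pool.Agent.Results.MP_88cfb8_co.Period
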